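import Pool.Agent.R526.LM.Rows
import Pool.Agent.R526.TP.Thin
import Pool.Agent.R529.BU.Main

/-!
Many windows with few primes, and few primes in a long window to the left.
-/

set_option autoImplicit false

open Finset Filter Topology
open Pool.Agent.H510R2.Maier Pool.Agent.H510R2.Maier.G
open Pool.Agent.H378R2 hiding DD
open Pool.Agent.R529.LD (DD floor_eq DD_ev small_lt)
open Pool.Agent.R529.BU (ww)

namespace Pool.Agent.R526.LM

/-- length of the left window -/
noncomputable def YY (t e : ℝ) (n : ℕ) : ℕ := ⌊(1 + e) * (Real.log n) ^ t⌋₊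

/-- the cost of a window -/
noncomputable def cost (u b c t e : ℝ) (n : ℕ) : ℝ :=
  u * ((TP.TT n ⌊c * (Real.log n) ^ 2⌋₊).card : ℝ) +
    b * (Real.log n) ^ (2 - t) * ((TP.TT (n - YY t e n) (YY t e n)).card : ℝ)

/-- the good windows -/
noncomputable def SG (u b c t e C y : ℝ) (x : ℕ) : Finset ℕ :=
  (Icc 1 x).filter (fun n => y / 2 < (n : ℝ) ∧ cost u b c t e n ≤ C * Real.log n)

theorem cnt_left (n Y Y' : ℕ) (h : Y' ≤ Y) (hn : Y ≤ n) : (TP.TT (n - Y') Y').card ≤ (TP.TT (n - Y) Y).card := by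
  apply Finset.card_le_card
  intro p hp
  unfold TP.TT at hp ⊢
  rw [Finset.mem_filter, Finset.mem_Ioc] at hp ⊢
  refine ⟨by omega, hp.2⟩

theorem TT_mono (n : ℕ) {w w' : ℕ} (h : w ≤ w') : (TP.TT n w).card ≤ (TP.TT n w').card := by
  apply Finset.card_le_card
  intro p hp
  unfold TP.TT at hp ⊢
  rw [Finset.mem_filter, Finset.mem_Ioc] at hp ⊢
  refine ⟨by omega, hp.2⟩

theorem ratio_lim (s K a : ℝ) (hs : 0 < s) (hK : 0 < K) :
    Tendsto (fun L : ℝ => ((⌊K * (L + a) ^ s⌋₊ : ℕ) : ℝ) / L ^ s) atTop (𝓝 K) := by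
  have h1 : Tendsto (fun L : ℝ => (L + a) / L) atTop (𝓝 1) := by
    have h2 : Tendsto (fun L : ℝ => 1 + a * L⁻¹) atTop (𝓝 (1 + a * 0)) :=
      (tendsto_inv_atTop_zero.const_mul a).const_add 1
    rw [mul_zero, add_zero] at h2
    refine h2.congr' ?_
    filter_upwards [eventually_gt_atTop (0 : ℝ)] with L hL
    field_simp
  have h2 : Tendsto (fun L : ℝ => K * ((L + a) / L) ^ s) atTop (𝓝 (K * 1 ^ s)) :=
    (h1.rpow_const (Or.inl one_ne_zero)).const_mul K
  rw [Real.one_rpow, mul_one] at h2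
  have h3 : Tendsto (fun L : ℝ => K * ((L + a) / L) ^ s - (L ^ s)⁻¹) atTop (𝓝 (K - 0)) :=
    h2.sub (tendsto_rpow_atTop hs).inv_tendsto_atTop
  rw [sub_zero] at h3
  apply tendsto_of_tendsto_of_tendsto_of_le_of_le' h3 h2
  · filter_upwards [eventually_gt_atTop (0 : ℝ), eventually_gt_atTop (-a)] with L hL hL2
    have hLa : 0 < L + a := by linarith
    rw [Real.div_rpow hLa.le hL.le]
    have hp : 0 < L ^ s := by positivity
    rw [inv_eq_one_div, ← mul_div_assoc, div_sub_div_same]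
    apply div_le_div_of_nonneg_right _ hp.le
    have := Nat.lt_floor_add_one (K * (L + a) ^ s)
    linarith
  · filter_upwards [eventually_gt_atTop (0 : ℝ), eventually_gt_atTop (-a)] with L hL hL2
    have hLa : 0 < L + a := by linarith
    rw [Real.div_rpow hLa.le hL.le, ← mul_div_assoc]
    have hp : 0 < L ^ s := by positivity
    apply div_le_div_of_nonneg_right _ hp.le
    exact Nat.floor_le (by positivity)

theorem ev_pow_bd (s K a : ℝ) (k : ℕ) (hs : 0 < s) (hsk : s < k) (hK : 0 < K) :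
    ∀ᶠ L : ℝ in atTop, ((⌊K * (L + a) ^ s⌋₊ : ℕ) : ℝ) ≤ L ^ k := by
  have h1 := (ratio_lim s K a hs hK).eventually_lt_const (show K < K + 1 by linarith)
  filter_upwards [h1, eventually_gt_atTop (0 : ℝ),
    (tendsto_rpow_atTop (show 0 < (k : ℝ) - s by linarith)).eventually_ge_atTop (K + 1)] with L h2 h3 h4
  have hp : 0 < L ^ s := by positivity
  rw [div_lt_iff₀ hp] at h2
  refine h2.le.trans ?_
  calc (K + 1) * L ^ s ≤ L ^ ((k : ℝ) - s) * L ^ s := by gcongr
    _ = L ^ k := by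
        rw [← Real.rpow_add h3, sub_add_cancel, Real.rpow_natCast]

theorem ev_count (θ η x : ℝ) (hθ : 0 < θ) (hθ1 : θ < 1) (hη : 0 < η) (hx : 0 < x) :
    ∀ᶠ X : ℝ in atTop, (3 * X) ^ (1 - η) ≤
      x / 200 * X * Real.exp (-(3 / 2 * (Real.log X / DD θ (Real.log X)))) := by
  have h1 : ∀ᶠ L : ℝ in atTop, L ^ θ ≤ η / 2 * L := by
    filter_upwards [(tendsto_rpow_atTop (show 0 < 1 - θ by linarith)).eventually_ge_atTop (2 / η),
      eventually_gt_atTop (0 : ℝ)] with L h1 h2
    rw [div_le_iff₀ hη] at h1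
    have h3 : L ^ (1 - θ) * L ^ θ = L := by
      rw [← Real.rpow_add h2]
      simp
    have h4 : 0 ≤ L ^ θ := by positivity
    nlinarith
  have h2 : ∀ᶠ L : ℝ in atTop, |(1 - η) * Real.log 3| + |Real.log (x / 200)| ≤ η / 2 * L := by
    filter_upwards [eventually_ge_atTop ((|(1 - η) * Real.log 3| + |Real.log (x / 200)|) / (η / 2))] with L hL
    rw [div_le_iff₀ (by positivity)] at hL
    linarith
  filter_upwards [Real.tendsto_log_atTop.eventually h1, Real.tendsto_log_atTop.eventually h2,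
    eventually_gt_atTop (1 : ℝ)] with X h3 h4 h5
  have hX0 : 0 < X := by linarith
  set L := Real.log X with hL
  have hL0 : 0 < L := Real.log_pos h5
  have hD : L / DD θ L = 1 / 4 * L ^ θ := by
    unfold DD
    have h : L ^ (1 - θ) * L ^ θ = L := by
      rw [← Real.rpow_add hL0]
      simp
    have h2 : 0 < L ^ (1 - θ) := by positivity
    rw [div_eq_iff (by positivity)]
    calc L = L ^ (1 - θ) * L ^ θ := h.symm
      _ = _ := by ring
  rw [hD]
  have e1 : (3 * X) ^ (1 - η) = Real.exp ((1 - η) * Real.log 3 + (1 - η) * L) := by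
    rw [Real.rpow_def_of_pos (by positivity), Real.log_mul (by norm_num) hX0.ne']
    congr 1
    ring
  have e2 : x / 200 * X * Real.exp (-(3 / 2 * (1 / 4 * L ^ θ))) =
      Real.exp (Real.log (x / 200) + L + -(3 / 2 * (1 / 4 * L ^ θ))) := by
    rw [Real.exp_add, Real.exp_add, Real.exp_log (by positivity), hL, Real.exp_log hX0]
  rw [e1, e2]
  apply Real.exp_le_exp.2
  have g1 := le_abs_self ((1 - η) * Real.log 3)
  have g2 := neg_abs_le (Real.log (x / 200))
  have g3 : 3 / 2 * (1 / 4 * L ^ θ) ≤ η / 2 * L := by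
    have : 0 ≤ L ^ θ := by positivity
    linarith
  linarith

theorem good_many (u b c t e C θ η : ℝ) (hu : 0 < u) (hb : 0 < b) (hc : 0 < c) (ht : 2 < t) (he : 0 < e)
    (hθ : 0 < θ) (hθ1 : θ < 1) (hη : 0 < η) (hη1 : η < 1)
    (hC : u * (c * ww 2 θ) + b * ((1 + e) * ww t θ) < C) :
    ∀ᶠ k : ℕ in atTop, ((2 : ℝ) ^ k) ^ (1 - η) / 2 ≤
      ((SG u b c t e C (((2 : ℝ) ^ k) ^ (1 - η)) (2 ^ k)).card : ℝ) := by
  have hw2 : 0 < ww 2 θ := Pool.Agent.R529.BU.ww_pos 2 θ hθ (by linarith)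
  have hwt : 0 < ww t θ := Pool.Agent.R529.BU.ww_pos t θ hθ (by linarith)
  have hC0 : 0 < C := lt_trans (by positivity) hC
  obtain ⟨x, hx0, hx1, hx2⟩ := small_lt (fun x => (1 + x) * ((1 + x) *
      (u * (c * ww 2 θ + x) + b * ((1 + e) * ww t θ + x)))) (by fun_prop) C 1 one_pos
    (by simp only [add_zero, one_mul]; exact hC)
  obtain ⟨m, hm⟩ := exists_nat_gt (max 2 t)
  have hm2 : (2 : ℝ) < m := (le_max_left _ _).trans_lt hm
  have hmt : t < m := (le_max_right _ _).trans_lt hm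
  have hg := ratio_lim 2 c (Real.log 3) (by norm_num) hc
  have hY := ratio_lim t (1 + e) (Real.log 3) (by linarith) (by linarith)
  obtain ⟨Z1, hZ1⟩ := side_up 2 θ c x hθ hθ1 (by linarith) hc hx0 _ hg
  obtain ⟨Z2, hZ2⟩ := side_up t θ (1 + e) x hθ hθ1 (by linarith) (by linarith) hx0 _ hY
  have hA1 := hZ1 (max Z1 Z2) (le_max_left _ _)
  have hA2 := hZ2 (max Z1 Z2) (le_max_right _ _)
  obtain ⟨X0, hX0⟩ := two_windows m x hx0 hx1.le (max Z1 Z2)
  have evL := ((ev_pow_bd 2 c (Real.log 3) m (by norm_num) hm2 hc).and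
    (ev_pow_bd t (1 + e) (Real.log 3) m (by linarith) hmt (by linarith))).and
    ((eventually_ge_atTop ((1 + x) / x + 1)).and (DD_ev θ hθ1))
  have h3k : Tendsto (fun k : ℕ => (2 : ℝ) ^ k / 3) atTop atTop :=
    (tendsto_pow_atTop_atTop_of_one_lt (by norm_num : (1 : ℝ) < 2)).atTop_div_const (by norm_num)
  have evX : ∀ᶠ X : ℝ in atTop, (Real.log X) ^ m ≤ X / 2 := Pool.Agent.R529.BU.ev_pow_le m
  filter_upwards [h3k.eventually hA1, h3k.eventually hA2, h3k.eventually_ge_atTop X0,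
    h3k.eventually (Real.tendsto_log_atTop.eventually evL), h3k.eventually_gt_atTop 1,
    h3k.eventually (ev_count θ η x hθ hθ1 hη hx0), h3k.eventually evX] with k g1 g2 g3 g4 g5 g6 g7
  obtain ⟨⟨g41, g42⟩, g43, g44⟩ := g4
  set X : ℝ := (2 : ℝ) ^ k / 3 with hXdef
  have h2k : (2 : ℝ) ^ k = 3 * X := by rw [hXdef]; ring
  have hXpos : 0 < X := by linarith
  obtain ⟨ps, S, hps, hS, hrow⟩ := hX0 X g3
  have hs1 := g1 ps S hps hS
  have hs2 := g2 ps S hps hS
  set L := Real.log X with hL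
  have hL1 : (1 + x) / x + 1 ≤ L := g43
  have hxx : 0 < (1 + x) / x := by positivity
  have hL0 : 1 < L := by linarith
  have hLx : L ≤ (1 + x) * (L - 1) := by
    have h1 : (1 + x) / x ≤ L - 1 := by linarith
    rw [div_le_iff₀ hx0] at h1
    linarith
  have hl3 : 0 ≤ Real.log 3 := Real.log_nonneg (by norm_num)
  set g := ⌊c * (L + Real.log 3) ^ (2 : ℝ)⌋₊ with hgd
  set Y := ⌊(1 + e) * (L + Real.log 3) ^ t⌋₊ with hYd
  have hβ : 0 < b * L ^ (2 - t) := by
    have : 0 < L ^ (2 - t) := Real.rpow_pos_of_pos (by linarith) _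
    positivity
  have hr := hrow (DD θ L) u (b * L ^ (2 - t)) _ _ g Y (by linarith) g41 g42 hu hβ hs1 hs2
  have hsub : rowset X (fun n => (L - 1) * (u * cnt n g + b * L ^ (2 - t) * cnt (n - Y) Y) ≤
      (1 + x) * (u * ((c * ww 2 θ + x) * L ^ (2 : ℝ)) + b * L ^ (2 - t) * (((1 + e) * ww t θ + x) * L ^ t))) ⊆
      SG u b c t e C (((2 : ℝ) ^ k) ^ (1 - η)) (2 ^ k) := by
    intro n hn
    obtain ⟨m1, m2, m3, m4⟩ := mem_rowset.1 hn
    have hn0 : (0 : ℝ) < n := by linarith
    have hnk : n ≤ 2 ^ k := by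
      have h1 : (n : ℝ) ≤ (2 : ℝ) ^ k := by linarith
      exact_mod_cast h1
    have hLn : L ≤ Real.log n := Real.log_le_log hXpos m2.le
    have hnL : Real.log n ≤ L + Real.log 3 := by
      have h1 : Real.log n ≤ Real.log (3 * X) := Real.log_le_log hn0 m3.le
      rw [Real.log_mul (by norm_num) hXpos.ne'] at h1
      linarith
    have hy : ((2 : ℝ) ^ k) ^ (1 - η) / 2 < n := by
      have h1 : ((2 : ℝ) ^ k) ^ (1 - η) ≤ ((2 : ℝ) ^ k) ^ (1 : ℝ) :=
        Real.rpow_le_rpow_of_exponent_le (by linarith) (by linarith)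
      rw [Real.rpow_one, h2k] at h1
      have h4 : x / 200 * X * Real.exp (-(3 / 2 * (L / DD θ L))) ≤ X := by
        have h5 : Real.exp (-(3 / 2 * (L / DD θ L))) ≤ 1 := by
          apply Real.exp_le_one_iff.2
          have : 0 ≤ L / DD θ L := div_nonneg (by linarith) (by linarith)
          linarith
        have h6 : x / 200 * X * Real.exp (-(3 / 2 * (L / DD θ L))) ≤ x / 200 * X * 1 :=
          mul_le_mul_of_nonneg_left h5 (by positivity)
        nlinarith
      rw [h2k]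
      have h7 := g6.trans h4
      have h8 : 0 ≤ (3 * X) ^ (1 - η) := by positivity
      linarith
    unfold SG
    rw [Finset.mem_filter, Finset.mem_Icc]
    refine ⟨⟨m1.1, hnk⟩, hy, ?_⟩
    have hYn : Y ≤ n := by
      have h1 : (Y : ℝ) ≤ L ^ m := g42
      have h2 : (Y : ℝ) ≤ n := by linarith
      exact_mod_cast h2
    have q1 : ((TP.TT n ⌊c * (Real.log n) ^ 2⌋₊).card : ℝ) ≤ cnt n g := by
      have h1 : ⌊c * (Real.log n) ^ 2⌋₊ ≤ g := by
        apply Nat.floor_le_floor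
        rw [← Real.rpow_natCast]
        push_cast
        apply mul_le_mul_of_nonneg_left _ hc.le
        exact Real.rpow_le_rpow (by linarith) hnL (by norm_num)
      rw [← TP.card_TT]
      exact_mod_cast TT_mono n h1
    have q2 : ((TP.TT (n - YY t e n) (YY t e n)).card : ℝ) ≤ cnt (n - Y) Y := by
      have h1 : YY t e n ≤ Y := by
        unfold YY
        apply Nat.floor_le_floor
        apply mul_le_mul_of_nonneg_left _ (by linarith)
        exact Real.rpow_le_rpow (by linarith) hnL (by linarith)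
      rw [← TP.card_TT]
      exact_mod_cast cnt_left n Y _ h1 hYn
    have q3 : (Real.log n) ^ (2 - t) ≤ L ^ (2 - t) :=
      Real.rpow_le_rpow_of_nonpos (by linarith) hLn (by linarith)
    have q4 : L ^ (2 - t) * L ^ t = L ^ 2 := by
      rw [← Real.rpow_add (by linarith), ← Real.rpow_natCast]
      norm_num
    have q5 : L ^ (2 : ℝ) = L ^ 2 := by
      rw [← Real.rpow_natCast]
      norm_num
    have q6 : (1 + x) * (u * ((c * ww 2 θ + x) * L ^ (2 : ℝ)) + b * L ^ (2 - t) * (((1 + e) * ww t θ + x) * L ^ t)) =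
        (1 + x) * (u * (c * ww 2 θ + x) + b * ((1 + e) * ww t θ + x)) * L ^ 2 := by
      rw [q5]
      calc _ = (1 + x) * (u * (c * ww 2 θ + x) * L ^ 2 + b * ((1 + e) * ww t θ + x) * (L ^ (2 - t) * L ^ t)) := by ring
        _ = _ := by rw [q4]; ring
    rw [q6] at m4
    have q7 : cost u b c t e n ≤ u * cnt n g + b * L ^ (2 - t) * cnt (n - Y) Y := by
      unfold cost
      have h1 : u * ((TP.TT n ⌊c * (Real.log n) ^ 2⌋₊).card : ℝ) ≤ u * cnt n g :=
        mul_le_mul_of_nonneg_left q1 hu.le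
      have h2 : b * (Real.log n) ^ (2 - t) * ((TP.TT (n - YY t e n) (YY t e n)).card : ℝ) ≤
          b * L ^ (2 - t) * cnt (n - Y) Y := by
        have h3 : b * (Real.log n) ^ (2 - t) ≤ b * L ^ (2 - t) := mul_le_mul_of_nonneg_left q3 hb.le
        exact mul_le_mul h3 q2 (Nat.cast_nonneg _) hβ.le
      linarith
    set T := u * (cnt n g : ℝ) + b * L ^ (2 - t) * cnt (n - Y) Y with hT
    set R := u * (c * ww 2 θ + x) + b * ((1 + e) * ww t θ + x) with hR
    have hR0 : 0 < R := by positivity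
    have q8 : T ≤ (1 + x) * ((1 + x) * R) * L := by
      have h1 : (L - 1) * T ≤ (L - 1) * ((1 + x) * ((1 + x) * R) * L) := by
        calc (L - 1) * T ≤ (1 + x) * R * L ^ 2 := m4
          _ = (1 + x) * R * L * L := by ring
          _ ≤ (1 + x) * R * L * ((1 + x) * (L - 1)) := by
              apply mul_le_mul_of_nonneg_left hLx
              have : 0 < L := by linarith
              positivity
          _ = _ := by ring
      exact le_of_mul_le_mul_left h1 (by linarith)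
    calc cost u b c t e n ≤ T := q7
      _ ≤ (1 + x) * ((1 + x) * R) * L := q8
      _ ≤ C * L := mul_le_mul_of_nonneg_right hx2.le (by linarith)
      _ ≤ C * Real.log n := mul_le_mul_of_nonneg_left hLn hC0.le
  have h1 : ((rowset X (fun n => (L - 1) * (u * cnt n g + b * L ^ (2 - t) * cnt (n - Y) Y) ≤
      (1 + x) * (u * ((c * ww 2 θ + x) * L ^ (2 : ℝ)) + b * L ^ (2 - t) * (((1 + e) * ww t θ + x) * L ^ t)))).card : ℝ) ≤
      ((SG u b c t e C (((2 : ℝ) ^ k) ^ (1 - η)) (2 ^ k)).card : ℝ) := by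
    exact_mod_cast Finset.card_le_card hsub
  have h2 := (g6.trans hr).trans h1
  rw [← h2k] at h2
  have h3 : 0 ≤ ((2 : ℝ) ^ k) ^ (1 - η) := by positivity
  linarith

end Pool.Agent.R526.LM
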