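import Pool.Agent.R526.LM.Good
import Pool.Agent.R526.RS.Low

set_option autoImplicit false

/-! # Windows without locally moved primes -/

namespace Pool.Agent.R526.LM

open MeasureTheory ProbabilityTheory Filter Finset Topology Pool.Agent.R526.RS

open scoped Classical

variable {Ω : Type} [MeasurableSpace Ω] (μ : Measure Ω) [IsProbabilityMeasure μ] {ξ : ℕ → Ω → ℕ}

/-- the moves of the primes to the left of a window -/
theorem moves (t : ℝ) (ht : 2 < t) (W : ℕ → ℕ)
    (hW : Tendsto (fun p : ℕ => (W p : ℝ) / (Real.log p) ^ t) atTop (𝓝 1)) (c e : ℝ) (hc : 0 < c) (he : 0 < e)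
    (he1 : e ≤ 1 / 10) :
    ∀ᶠ n : ℕ in atTop, 1 ≤ Real.log n ∧ YY t e n ≤ n ∧
      (∀ p : ℕ, p ≤ n → n < p + W p → n - YY t e n < p ∧ (1 - 2 * e) * (Real.log n) ^ t ≤ W p) ∧
      (∀ p : ℕ, n < p → (⌊c * (Real.log n) ^ 2⌋₊ : ℝ) ≤ e * W p) ∧
      (⌊c * (Real.log n) ^ 2⌋₊ : ℝ) ≤ e * ((1 - 2 * e) * (Real.log n) ^ t) := by
  have h1 := hW.eventually (Ioo_mem_nhds (show 1 - e < 1 by linarith) (show (1 : ℝ) < 1 + e by linarith))
  obtain ⟨p₁, hp₁⟩ := eventually_atTop.1 h1
  have hlog : Tendsto (fun n : ℕ => Real.log (n : ℝ)) atTop atTop :=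
    Real.tendsto_log_atTop.comp tendsto_natCast_atTop_atTop
  -- small primes
  have e1 : ∀ᶠ n : ℕ in atTop, ∀ p < p₁, p + W p ≤ n := by
    filter_upwards [eventually_ge_atTop (∑ p ∈ range p₁, (p + W p))] with n hn p hp
    exact (Finset.single_le_sum (f := fun p => p + W p) (fun i _ => Nat.zero_le _) (mem_range.2 hp)).trans hn
  have e2 : ∀ᶠ L : ℝ in atTop, (1 - e) * L ^ t ≤ (L - 1) ^ t := by
    have h2 : Tendsto (fun L : ℝ => ((L - 1) / L) ^ t) atTop (𝓝 1) := by
      have h3 : Tendsto (fun L : ℝ => (L - 1) / L) atTop (𝓝 1) := by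
        have h4 : Tendsto (fun L : ℝ => 1 - L⁻¹) atTop (𝓝 (1 - 0)) := tendsto_inv_atTop_zero.const_sub 1
        rw [sub_zero] at h4
        refine h4.congr' ?_
        filter_upwards [eventually_gt_atTop (0 : ℝ)] with L hL
        field_simp
      have := h3.rpow_const (p := t) (Or.inl one_ne_zero)
      rwa [Real.one_rpow] at this
    filter_upwards [h2.eventually_const_lt (show 1 - e < 1 by linarith), eventually_gt_atTop (1 : ℝ)] with L h3 h4
    have hL : 0 < L := by linarith
    rw [Real.div_rpow (by linarith) hL.le, lt_div_iff₀ (by positivity)] at h3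
    exact h3.le
  have e3 : ∀ᶠ L : ℝ in atTop, c * L ^ 2 ≤ e * ((1 - 2 * e) * L ^ t) := by
    filter_upwards [(tendsto_rpow_atTop (show 0 < t - 2 by linarith)).eventually_ge_atTop (c / (e * (1 - 2 * e))),
      eventually_gt_atTop (0 : ℝ)] with L h2 h3
    have h4 : 0 < e * (1 - 2 * e) := mul_pos he (by linarith)
    rw [div_le_iff₀ h4] at h2
    have h5 : L ^ (t - 2) * L ^ 2 = L ^ t := by
      rw [← Real.rpow_natCast, ← Real.rpow_add h3]
      norm_num
    calc c * L ^ 2 ≤ L ^ (t - 2) * (e * (1 - 2 * e)) * L ^ 2 := by gcongr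
      _ = e * ((1 - 2 * e) * (L ^ (t - 2) * L ^ 2)) := by ring
      _ = _ := by rw [h5]
  have e4 : ∀ᶠ n : ℕ in atTop, (1 + e) * (Real.log n) ^ t ≤ (n : ℝ) / 2 := by
    have h2 := (isLittleO_log_rpow_rpow_atTop t (show (0 : ℝ) < 1 by norm_num)).def
      (show (0 : ℝ) < 1 / (2 * (1 + e)) by positivity)
    filter_upwards [tendsto_natCast_atTop_atTop.eventually h2, eventually_ge_atTop 1] with n h3 h4
    have h5 : (1 : ℝ) ≤ n := by exact_mod_cast h4
    rw [Real.rpow_one, Real.norm_of_nonneg (Real.rpow_nonneg (Real.log_nonneg h5) t),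
      Real.norm_of_nonneg (by linarith)] at h3
    calc (1 + e) * (Real.log n) ^ t ≤ (1 + e) * (1 / (2 * (1 + e)) * n) :=
          mul_le_mul_of_nonneg_left h3 (by linarith)
      _ = (n : ℝ) / 2 := by field_simp
  filter_upwards [e1, hlog.eventually e2, hlog.eventually e3, e4, hlog.eventually_ge_atTop 1,
    eventually_ge_atTop (2 * p₁ + 2)] with n g1 g2 g3 g4 g5 g6
  set L := Real.log n with hL
  have hn2 : (2 : ℝ) ≤ n := by exact_mod_cast (by omega : 2 ≤ n)
  have hL0 : 0 < L := by linarith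
  have hLt : 0 < L ^ t := by positivity
  have hYr : ((YY t e n : ℕ) : ℝ) ≤ (1 + e) * L ^ t := Nat.floor_le (by positivity)
  have hYn2 : ((YY t e n : ℕ) : ℝ) ≤ n / 2 := hYr.trans g4
  have hYn : YY t e n ≤ n := by
    have : ((YY t e n : ℕ) : ℝ) ≤ n := by linarith
    exact_mod_cast this
  have hfl : (⌊c * L ^ 2⌋₊ : ℝ) ≤ e * ((1 - 2 * e) * L ^ t) := (Nat.floor_le (by positivity)).trans g3
  refine ⟨g5, hYn, ?_, ?_, hfl⟩
  · intro p hpn hpW
    have hp1 : p₁ ≤ p := by
      by_contra hcon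
      have := g1 p (by omega)
      omega
    obtain ⟨w1, w2⟩ := hp₁ p hp1
    have hp0 : (1 : ℝ) < p := by
      have h2 : 0 < p := by
        rcases Nat.eq_zero_or_pos p with h | h
        · exfalso
          rw [h] at w1
          simp only [Nat.cast_zero, Real.log_zero] at w1
          rw [Real.zero_rpow (by linarith), div_zero] at w1
          linarith
        · exact h
      have h3 : p ≠ 1 := by
        intro h
        rw [h] at w1
        simp only [Nat.cast_one, Real.log_one] at w1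
        rw [Real.zero_rpow (by linarith), div_zero] at w1
        linarith
      exact_mod_cast (by omega : 1 < p)
    have hlp : 0 < Real.log p := Real.log_pos hp0
    have hlpn : Real.log p ≤ L := Real.log_le_log (by linarith) (by exact_mod_cast hpn)
    have hlt : 0 < (Real.log p) ^ t := by positivity
    rw [lt_div_iff₀ hlt] at w1
    rw [div_lt_iff₀ hlt] at w2
    have hWY : W p ≤ YY t e n := by
      apply Nat.le_floor
      refine w2.le.trans ?_
      apply mul_le_mul_of_nonneg_left _ (by linarith)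
      exact Real.rpow_le_rpow hlp.le hlpn (by linarith)
    have hlow : n - YY t e n < p := by omega
    refine ⟨hlow, ?_⟩
    have hp2 : (n : ℝ) / 2 ≤ p := by
      have h2 : (n : ℝ) < p + YY t e n := by exact_mod_cast (by omega : n < p + YY t e n)
      linarith
    have hl2 : L - 1 ≤ Real.log p := by
      have h2 : Real.log ((n : ℝ) / 2) ≤ Real.log p := Real.log_le_log (by linarith) hp2
      rw [Real.log_div (by linarith) (by norm_num)] at h2
      have := Real.log_two_lt_d9
      linarith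
    have h3 : (L - 1) ^ t ≤ (Real.log p) ^ t := Real.rpow_le_rpow (by linarith) hl2 (by linarith)
    have h4 : (1 - e) * ((1 - e) * L ^ t) ≤ (1 - e) * (Real.log p) ^ t :=
      mul_le_mul_of_nonneg_left (g2.trans h3) (by linarith)
    have h5 : (1 - 2 * e) * L ^ t ≤ (1 - e) * ((1 - e) * L ^ t) := by
      have : (1 - e) * ((1 - e) * L ^ t) = (1 - 2 * e) * L ^ t + e ^ 2 * L ^ t := by ring
      rw [this]
      have : 0 ≤ e ^ 2 * L ^ t := by positivity
      linarith
    linarith
  · intro p hnp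
    obtain ⟨w1, w2⟩ := hp₁ p (by omega)
    have hp0 : (n : ℝ) ≤ p := by exact_mod_cast hnp.le
    have hlpn : L ≤ Real.log p := Real.log_le_log (by linarith) hp0
    have hlt : 0 < (Real.log p) ^ t := Real.rpow_pos_of_pos (by linarith) t
    rw [lt_div_iff₀ hlt] at w1
    have h3 : L ^ t ≤ (Real.log p) ^ t := Real.rpow_le_rpow hL0.le hlpn (by linarith)
    have h4 : (1 - 2 * e) * L ^ t ≤ W p := by
      have h5 : (1 - 2 * e) * L ^ t ≤ (1 - e) * (Real.log p) ^ t := by
        have h6 : (1 - 2 * e) * L ^ t ≤ (1 - e) * L ^ t :=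
          mul_le_mul_of_nonneg_right (by linarith) hLt.le
        have h7 := mul_le_mul_of_nonneg_left h3 (show 0 ≤ 1 - e by linarith)
        linarith
      linarith
    exact hfl.trans (mul_le_mul_of_nonneg_left h4 he.le)

/-- the probability that a window is avoided -/
theorem one_low (hξ : ∀ p, Measurable (ξ p)) (hind : iIndepFun ξ μ) (t : ℝ) (ht : 2 < t)
    (W : ℕ → ℕ) (hW : Tendsto (fun p : ℕ => (W p : ℝ) / (Real.log p) ^ t) atTop (𝓝 1)) (δ : ℝ) (hδ0 : 0 < δ)
    (hδ1 : δ ≤ 1) (p₀ : ℕ) (hp₀ : ∀ p, p.Prime → p₀ ≤ p → 1 ≤ W p)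
    (hlaw : ∀ p, p.Prime → p₀ ≤ p → Law μ (ξ p) p (W p) δ)
    (c e : ℝ) (hc : 0 < c) (he : 0 < e) (he1 : e ≤ 1 / 10) :
    ∀ᶠ n : ℕ in atTop, ∀ F : Finset ℕ, (∀ p ∈ F, p.Prime ∧ p₀ ≤ p) →
      Real.exp (-(cost (-Real.log δ + 10 * e) (δ * c * (1 + 10 * e)) c t e n)) ≤
        μ.real (Av ξ F (Ioc n (n + ⌊c * (Real.log n) ^ 2⌋₊))) := by
  filter_upwards [moves t ht W hW c e hc he he1] with n hmv F hF
  obtain ⟨hL1, hYn, s1, s2, s3⟩ := hmv
  rw [Av_real μ hξ hind]
  unfold cost
  set L := Real.log n with hL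
  set w := ⌊c * L ^ 2⌋₊ with hw
  set Y := YY t e n with hY
  have hL0 : 0 < L := by linarith
  have hLt : 0 < L ^ t := by positivity
  have hwr : (w : ℝ) ≤ c * L ^ 2 := Nat.floor_le (by positivity)
  set T := TP.TT n w with hT
  set R := TP.TT (n - Y) Y with hR
  set u : ℝ := -Real.log δ + 10 * e with hu
  have hden : 0 < (1 - 2 * e) * L ^ t := mul_pos (by linarith) hLt
  set a₀ : ℝ := δ * (w / ((1 - 2 * e) * L ^ t)) with ha₀
  set r : ℝ := a₀ / (1 - e) with hr
  have hlogδ : Real.log δ ≤ 0 := Real.log_nonpos hδ0.le hδ1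
  have hu0 : 0 ≤ u := by rw [hu]; linarith
  have ha₀0 : 0 ≤ a₀ := by positivity
  have ha₀2 : a₀ ≤ e := by
    rw [ha₀]
    have h1 : (w : ℝ) / ((1 - 2 * e) * L ^ t) ≤ e := by
      rw [div_le_iff₀ hden]
      exact s3
    calc δ * (w / ((1 - 2 * e) * L ^ t)) ≤ 1 * e := mul_le_mul hδ1 h1 (by positivity) (by norm_num)
      _ = e := one_mul e
  have hr0 : 0 ≤ r := div_nonneg ha₀0 (by linarith)
  have hterm : ∀ p ∈ F, Real.exp (-((if p ∈ T then u else 0) + (if p ∈ R then r else 0))) ≤
      1 - μ.real {ω | ξ p ω ∈ Ioc n (n + w)} := by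
    intro p hp
    obtain ⟨hpp, hp0⟩ := hF p hp
    have hWp := hp₀ p hpp hp0
    have hWpr : (1 : ℝ) ≤ W p := by exact_mod_cast hWp
    have hl := hlaw p hpp hp0
    rcases lt_or_ge n p with h | h
    · rcases lt_or_ge (n + w) p with h' | h'
      · rw [win_zero μ (hξ p) hl hWp n w (Or.inr h'), sub_zero]
        apply Real.exp_le_one_iff.2
        have h1 : (0 : ℝ) ≤ if p ∈ T then u else 0 := by split_ifs <;> [exact hu0; exact le_rfl]
        have h2 : (0 : ℝ) ≤ if p ∈ R then r else 0 := by split_ifs <;> [exact hr0; exact le_rfl]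
        linarith
      · have hpT : p ∈ T := by
          rw [hT]
          unfold TP.TT
          rw [mem_filter, mem_Ioc]
          exact ⟨⟨h, h'⟩, hpp⟩
        rw [if_pos hpT]
        have h1 := win_le μ (hξ p) hl hWp hδ0.le hδ1 n w
        have h3 : (w : ℝ) / W p ≤ e := by
          rw [div_le_iff₀ (by linarith)]
          exact s2 p h
        have h4 : Real.exp (-u) ≤ δ * (1 - w / W p) := by
          have h5 : Real.exp (-u) = δ * Real.exp (-(10 * e)) := by
            rw [hu, neg_add, neg_neg, Real.exp_add, Real.exp_log hδ0]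
          rw [h5]
          apply mul_le_mul_of_nonneg_left _ hδ0.le
          have h6 : (0 : ℝ) ≤ w / W p := by positivity
          apply exp_le_one_sub _ _ h6 (by linarith)
          rw [div_le_iff₀ (by linarith)]
          nlinarith
        have h5 : Real.exp (-(u + if p ∈ R then r else 0)) ≤ Real.exp (-u) := by
          apply Real.exp_le_exp.2
          have h2 : (0 : ℝ) ≤ if p ∈ R then r else 0 := by split_ifs <;> [exact hr0; exact le_rfl]
          linarith
        linarith
    · rcases le_or_gt (p + W p) n with h' | h'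
      · rw [win_zero μ (hξ p) hl hWp n w (Or.inl h'), sub_zero]
        apply Real.exp_le_one_iff.2
        have h1 : (0 : ℝ) ≤ if p ∈ T then u else 0 := by split_ifs <;> [exact hu0; exact le_rfl]
        have h2 : (0 : ℝ) ≤ if p ∈ R then r else 0 := by split_ifs <;> [exact hr0; exact le_rfl]
        linarith
      · obtain ⟨h6, h2⟩ := s1 p h h'
        have hpR : p ∈ R := by
          rw [hR]
          unfold TP.TT
          rw [mem_filter, mem_Ioc]
          exact ⟨⟨h6, by omega⟩, hpp⟩
        rw [if_pos hpR]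
        have h1 := win_le' μ (hξ p) hl hWp hδ0.le n w h
        have h3 : δ * (w / W p) ≤ a₀ := by
          rw [ha₀]
          apply mul_le_mul_of_nonneg_left _ hδ0.le
          exact div_le_div_of_nonneg_left (Nat.cast_nonneg w) hden h2
        have h4 : Real.exp (-r) ≤ 1 - a₀ := by
          apply exp_le_one_sub _ _ ha₀0 (by linarith)
          rw [hr]
          exact div_le_div_of_nonneg_left ha₀0 (by linarith) (by linarith)
        have h5 : Real.exp (-((if p ∈ T then u else 0) + r)) ≤ Real.exp (-r) := by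
          apply Real.exp_le_exp.2
          have h2 : (0 : ℝ) ≤ if p ∈ T then u else 0 := by split_ifs <;> [exact hu0; exact le_rfl]
          linarith
        linarith
  refine le_trans ?_ (Finset.prod_le_prod (fun p _ => (Real.exp_pos _).le) hterm)
  rw [← Real.exp_sum]
  apply Real.exp_le_exp.2
  rw [sum_neg_distrib, neg_le_neg_iff, sum_add_distrib, ← sum_filter, ← sum_filter, sum_const, sum_const,
    nsmul_eq_mul, nsmul_eq_mul]
  have c1 : (((F.filter (fun p => p ∈ T)).card : ℕ) : ℝ) ≤ T.card := by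
    exact_mod_cast card_le_card (fun p hp => (mem_filter.1 hp).2)
  have c2 : (((F.filter (fun p => p ∈ R)).card : ℕ) : ℝ) ≤ R.card := by
    exact_mod_cast card_le_card (fun p hp => (mem_filter.1 hp).2)
  have c3 : (((F.filter (fun p => p ∈ T)).card : ℕ) : ℝ) * u ≤ u * T.card := by
    rw [mul_comm u]
    exact mul_le_mul_of_nonneg_right c1 hu0
  have c5 : r ≤ δ * c * (1 + 10 * e) * L ^ (2 - t) := by
    have h0 : L ^ (2 - t) = L ^ 2 / L ^ t := by
      rw [Real.rpow_sub hL0, ← Real.rpow_natCast]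
      norm_num
    have h1 : r = (δ * w / L ^ t) * (1 / ((1 - 2 * e) * (1 - e))) := by
      rw [hr, ha₀]
      have : (1 - 2 * e) ≠ 0 := by linarith
      have : (1 - e) ≠ 0 := by linarith
      field_simp
    have h2 : 1 / ((1 - 2 * e) * (1 - e)) ≤ 1 + 10 * e := by
      rw [div_le_iff₀ (mul_pos (by linarith) (by linarith))]
      have h3 : 0 ≤ e * (1 / 10 - e) := mul_nonneg he.le (by linarith)
      have h4 : 0 ≤ e ^ 3 := by positivity
      nlinarith
    have h3 : δ * w / L ^ t ≤ δ * c * (L ^ 2 / L ^ t) := by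
      rw [← mul_div_assoc]
      apply div_le_div_of_nonneg_right _ hLt.le
      calc δ * w ≤ δ * (c * L ^ 2) := mul_le_mul_of_nonneg_left hwr hδ0.le
        _ = δ * c * L ^ 2 := by ring
    rw [h1, h0]
    calc (δ * w / L ^ t) * (1 / ((1 - 2 * e) * (1 - e))) ≤ (δ * c * (L ^ 2 / L ^ t)) * (1 + 10 * e) :=
          mul_le_mul h3 h2 (by
            apply div_nonneg zero_le_one
            exact mul_nonneg (by linarith) (by linarith)) (by positivity)
      _ = _ := by ring
  have c6 : (((F.filter (fun p => p ∈ R)).card : ℕ) : ℝ) * r ≤ δ * c * (1 + 10 * e) * L ^ (2 - t) * R.card := by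
    calc _ ≤ (R.card : ℝ) * (δ * c * (1 + 10 * e) * L ^ (2 - t)) := mul_le_mul c2 c5 hr0 (Nat.cast_nonneg _)
      _ = _ := by ring
  linarith

end Pool.Agent.R526.LM
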