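import Pool.Agent.R526.LM.Side

/-!
Rows of Maier's matrix: few primes in a window to the right and in a long window to the left.
(Adapted from `Pool.Agent.R529.BU.Rows`, helper529.)
-/

set_option autoImplicit false

open Finset Filter Topology
open Pool.Agent.H510R2.Maier Pool.Agent.H378R2
open Pool.Agent.R529.BU (rows_sums)

namespace Pool.Agent.R526.LM

theorem VV_left (W Y : ℕ) (hW : 0 < W) : VV W (W * Y - Y) Y ≤ VV W 0 Y + 1 := by
  classical
  have hle : Y ≤ W * Y := Nat.le_mul_of_pos_left Y hW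
  have hcop : ∀ j, j ≤ Y → ((W * Y - j).Coprime W ↔ j.Coprime W) := by
    intro j hj
    have h1 : W * Y - j + j = W * Y := by omega
    constructor
    · intro h
      have h2 : (W * Y - j + j).gcd W = W := by
        rw [h1]
        exact Nat.gcd_eq_right (Dvd.intro Y rfl)
      rw [Nat.coprime_iff_gcd_eq_one] at h ⊢
      by_contra hne
      obtain ⟨p, hp, hpd⟩ := Nat.exists_prime_and_dvd hne
      have h3 : p ∣ j := hpd.trans (Nat.gcd_dvd_left _ _)
      have h4 : p ∣ W := hpd.trans (Nat.gcd_dvd_right _ _)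
      have h5 : p ∣ W * Y - j := Nat.dvd_sub (h4.mul_right Y) h3
      have h6 : p ∣ (W * Y - j).gcd W := Nat.dvd_gcd h5 h4
      rw [h] at h6
      exact hp.one_lt.ne' (Nat.dvd_one.1 h6)
    · intro h
      rw [Nat.coprime_iff_gcd_eq_one] at h ⊢
      by_contra hne
      obtain ⟨p, hp, hpd⟩ := Nat.exists_prime_and_dvd hne
      have h3 : p ∣ W * Y - j := hpd.trans (Nat.gcd_dvd_left _ _)
      have h4 : p ∣ W := hpd.trans (Nat.gcd_dvd_right _ _)
      have h5 : p ∣ j := by
        have := Nat.dvd_sub (h4.mul_right Y) h3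
        have h7 : W * Y - (W * Y - j) = j := by omega
        rwa [h7] at this
      have h6 : p ∣ j.gcd W := Nat.dvd_gcd h5 h4
      rw [h] at h6
      exact hp.one_lt.ne' (Nat.dvd_one.1 h6)
  unfold VV
  have hsub : (Icc 1 Y).filter (fun h => (W * Y - Y + h).Coprime W) ⊆
      insert Y (((Icc 1 Y).filter (fun h => (0 + h).Coprime W)).image (fun j => Y - j)) := by
    intro h hh
    obtain ⟨h1, h2⟩ := Finset.mem_filter.1 hh
    rw [Finset.mem_Icc] at h1
    rw [Finset.mem_insert, Finset.mem_image]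
    rcases eq_or_ne h Y with h3 | h3
    · exact Or.inl h3
    · right
      refine ⟨Y - h, Finset.mem_filter.2 ⟨Finset.mem_Icc.2 (by omega), ?_⟩, by omega⟩
      rw [zero_add]
      rw [← hcop (Y - h) (by omega)]
      have h4 : W * Y - (Y - h) = W * Y - Y + h := by omega
      rw [h4]
      exact h2
  refine (Finset.card_le_card hsub).trans ((Finset.card_insert_le _ _).trans ?_)
  exact Nat.add_le_add_right Finset.card_image_le 1

theorem ev_small2 (k : ℕ) : ∀ᶠ X : ℝ in atTop,
    6 * ((Real.log X) ^ k * ((Real.log X) ^ k * Real.log (4 * X))) ≤ X / 20 / Real.exp (Real.log X / 700) := by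
  have h1 : Tendsto (fun L : ℝ => L ^ (2 * k + 1) * Real.exp (-(1 / 2) * L)) atTop (𝓝 0) := by
    have := Real.tendsto_pow_mul_exp_neg_atTop_nhds_zero (2 * k + 1)
    have h2 := this.comp (tendsto_id.const_mul_atTop (show (0 : ℝ) < 1 / 2 by norm_num))
    have h3 := h2.const_mul ((2 : ℝ) ^ (2 * k + 1))
    rw [mul_zero] at h3
    refine h3.congr fun L => ?_
    simp only [Function.comp, id]
    rw [show -(1 / 2) * L = -(1 / 2 * L) by ring, ← mul_assoc, ← mul_pow]
    congr 2
    ring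
  have h2 : ∀ᶠ L : ℝ in atTop, L ^ (2 * k + 1) * Real.exp (-(1 / 2) * L) < 1 / 240 :=
    h1.eventually_lt_const (by norm_num)
  filter_upwards [Real.tendsto_log_atTop.eventually h2, eventually_ge_atTop (4 : ℝ)] with X h3 hX
  have hX0 : 0 < X := by linarith
  set L := Real.log X with hL
  have hL0 : 0 ≤ L := Real.log_nonneg (by linarith)
  have h4 : Real.log (4 * X) ≤ 2 * L := by
    rw [Real.log_mul (by norm_num) hX0.ne']
    have : Real.log 4 ≤ L := Real.log_le_log (by norm_num) hX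
    linarith
  have h40 : 0 ≤ Real.log (4 * X) := Real.log_nonneg (by linarith)
  have hX2 : X = Real.exp L := by rw [hL, Real.exp_log hX0]
  rw [le_div_iff₀ (Real.exp_pos _)]
  have h5 : 0 ≤ L ^ k := pow_nonneg hL0 k
  have h6 : L ^ k * (L ^ k * Real.log (4 * X)) ≤ 2 * L ^ (2 * k + 1) := by
    calc L ^ k * (L ^ k * Real.log (4 * X)) ≤ L ^ k * (L ^ k * (2 * L)) := by gcongr
      _ = 2 * L ^ (2 * k + 1) := by ring
  have h7 : Real.exp (L / 700) ≤ Real.exp (L / 2) := Real.exp_le_exp.2 (by linarith)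
  have h8 : L ^ (2 * k + 1) * Real.exp (L / 2) ≤ 1 / 240 * Real.exp L := by
    have h9 : Real.exp (-(1 / 2) * L) * Real.exp L = Real.exp (L / 2) := by
      rw [← Real.exp_add]; congr 1; ring
    calc L ^ (2 * k + 1) * Real.exp (L / 2) = (L ^ (2 * k + 1) * Real.exp (-(1 / 2) * L)) * Real.exp L := by
          rw [mul_assoc, h9]
      _ ≤ _ := mul_le_mul_of_nonneg_right h3.le (Real.exp_pos _).le
  have h10 : 0 ≤ L ^ (2 * k + 1) := pow_nonneg hL0 _
  calc 6 * (L ^ k * (L ^ k * Real.log (4 * X))) * Real.exp (L / 700) ≤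
        6 * (2 * L ^ (2 * k + 1)) * Real.exp (L / 2) := by gcongr
    _ = 12 * (L ^ (2 * k + 1) * Real.exp (L / 2)) := by ring
    _ ≤ 12 * (1 / 240 * Real.exp L) := by gcongr
    _ = X / 20 := by rw [hX2]; ring

/-- the sum over the rows of the primes to the left -/
theorem left_sum (X : ℝ) (hX : 40 ≤ X) (W Y : ℕ) (hW : 0 < W) (hY : (Y : ℝ) ≤ X / 2) :
    ∑ n ∈ Icc 1 ⌊3 * X⌋₊, nu X W 0 n * thw (n - Y) Y ≤
      ∑ n ∈ Icc 1 ⌊3 * X⌋₊, nu X W (W * Y - Y) n * thw n Y +
        6 * ((Y : ℝ) * (Y * Real.log (4 * X))) / 2 := by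
  classical
  have hX0 : 0 < X := by linarith
  have hle : Y ≤ W * Y := Nat.le_mul_of_pos_left Y hW
  set N := ⌊3 * X⌋₊ with hN
  have hNr : (N : ℝ) ≤ 3 * X := Nat.floor_le (by linarith)
  have hl4 : 0 ≤ Real.log (4 * X) := Real.log_nonneg (by linarith)
  set f : ℕ → ℝ := fun n => nu X W (W * Y - Y) n * thw n Y with hf
  have hf0 : ∀ n, 0 ≤ f n := fun n => mul_nonneg (nu_nonneg _ _ _ _) (thw_nonneg _ _)
  have hterm : ∀ n ∈ Icc 1 N, nu X W 0 n * thw (n - Y) Y ≤
      (if Y < n then f (n - Y) else 0) + Y / X * (Y * Real.log (4 * X)) := by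
    intro n hn
    rw [Finset.mem_Icc] at hn
    have hpos : 0 ≤ (Y : ℝ) / X * (Y * Real.log (4 * X)) := by positivity
    have hif : 0 ≤ (if Y < n then f (n - Y) else 0) := by
      split_ifs
      · exact hf0 _
      · exact le_rfl
    by_cases hnX : X < n
    · have hYn : Y < n := by
        have : (Y : ℝ) < n := by linarith
        exact_mod_cast this
      rw [if_pos hYn]
      have hsub : ((n - Y : ℕ) : ℝ) = (n : ℝ) - Y := Nat.cast_sub hYn.le
      have hthw : thw (n - Y) Y ≤ Y * Real.log (4 * X) := by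
        have h1 := thw_le (n - Y) Y (4 * X) (by
          rw [hsub]
          have : (n : ℝ) ≤ N := by exact_mod_cast hn.2
          linarith) (by omega)
        have h2 : (cnt (n - Y) Y : ℝ) ≤ Y := by
          have : cnt (n - Y) Y ≤ Y := by
            unfold cnt
            refine (Finset.card_filter_le _ _).trans ?_
            simp
          exact_mod_cast this
        calc thw (n - Y) Y ≤ Real.log (4 * X) * cnt (n - Y) Y := h1
          _ ≤ Real.log (4 * X) * Y := mul_le_mul_of_nonneg_left h2 hl4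
          _ = _ := by ring
      have hthw0 := thw_nonneg (n - Y) Y
      have hnu : nu X W 0 n ≤ nu X W (W * Y - Y) (n - Y) + Y / X := by
        unfold nu
        by_cases hm : n ≡ 0 [MOD W]
        · have hm2 : n - Y ≡ W * Y - Y [MOD W] := by
            have h1 : n - Y + Y ≡ W * Y - Y + Y [MOD W] := by
              have h2 : n - Y + Y = n := by omega
              have h3 : W * Y - Y + Y = W * Y := by omega
              rw [h2, h3]
              refine hm.trans ?_
              exact ((Nat.modEq_zero_iff_dvd).2 (Dvd.intro Y rfl)).symm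
            exact Nat.ModEq.add_right_cancel' Y h1
          rw [if_pos hm, if_pos hm2]
          have h1 := Phi_lip (u := n / X) (v := ((n - Y : ℕ) : ℝ) / X) (by positivity) (by positivity)
          have h2 : (n : ℝ) / X - ((n - Y : ℕ) : ℝ) / X = Y / X := by
            rw [hsub]
            ring
          rw [h2, abs_of_nonneg (show (0 : ℝ) ≤ Y / X by positivity)] at h1
          have := (abs_le.1 h1).2
          linarith
        · rw [if_neg hm]
          have : (0 : ℝ) ≤ Y / X := by positivity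
          split_ifs
          · have := Phi_nonneg (((n - Y : ℕ) : ℝ) / X)
            linarith
          · linarith
      have h3 : nu X W 0 n * thw (n - Y) Y ≤ (nu X W (W * Y - Y) (n - Y) + Y / X) * thw (n - Y) Y :=
        mul_le_mul_of_nonneg_right hnu hthw0
      have h4 : (Y : ℝ) / X * thw (n - Y) Y ≤ Y / X * (Y * Real.log (4 * X)) :=
        mul_le_mul_of_nonneg_left hthw (by positivity)
      simp only [hf]
      linarith
    · rw [nu_eq_zero hX0 (by tauto), zero_mul]
      linarith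
  refine (Finset.sum_le_sum hterm).trans ?_
  rw [Finset.sum_add_distrib]
  have h1 : ∑ n ∈ Icc 1 N, (if Y < n then f (n - Y) else 0) ≤ ∑ n ∈ Icc 1 N, f n := by
    rw [← Finset.sum_filter]
    have h2 : ∑ n ∈ (Icc 1 N).filter (fun n => Y < n), f (n - Y) =
        ∑ m ∈ ((Icc 1 N).filter (fun n => Y < n)).image (fun n => n - Y), f m := by
      rw [Finset.sum_image]
      intro a ha b hb hab
      have ha' := (Finset.mem_filter.1 ha).2
      have hb' := (Finset.mem_filter.1 hb).2
      simp only at hab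
      omega
    rw [h2]
    apply Finset.sum_le_sum_of_subset_of_nonneg
    · intro m hm
      rw [Finset.mem_image] at hm
      obtain ⟨n, hn, rfl⟩ := hm
      rw [Finset.mem_filter, Finset.mem_Icc] at hn
      rw [Finset.mem_Icc]
      omega
    · intro i _ _
      exact hf0 i
  have h2 : ∑ _n ∈ Icc 1 N, (Y : ℝ) / X * (Y * Real.log (4 * X)) ≤
      6 * ((Y : ℝ) * (Y * Real.log (4 * X))) / 2 := by
    rw [Finset.sum_const, Nat.card_Icc, Nat.add_sub_cancel, nsmul_eq_mul]
    calc (N : ℝ) * (Y / X * (Y * Real.log (4 * X))) ≤ (3 * X) * (Y / X * (Y * Real.log (4 * X))) := by gcongr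
      _ = 6 * ((Y : ℝ) * (Y * Real.log (4 * X))) / 2 := by
          field_simp
          ring
  linarith

/-- many rows with few primes on both sides -/
theorem two_windows (k : ℕ) (ε : ℝ) (hε : 0 < ε) (hε1 : ε ≤ 1) (Z : ℕ) : ∃ X0 : ℝ, ∀ X : ℝ, X0 ≤ X →
    ∃ (ps : ℕ) (S : Finset ℕ), GoodP Z ps ∧ GoodS X S ∧
      ∀ (D α β A₁ A₂ : ℝ) (g Y : ℕ), 0 < D → (g : ℝ) ≤ (Real.log X) ^ k → (Y : ℝ) ≤ (Real.log X) ^ k →
        0 < α → 0 < β →
        ((VV (WD X D S ps) 0 g : ℝ) + 81) / BE (PD X D S ps) ≤ A₁ →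
        ((VV (WD X D S ps) 0 Y : ℝ) + 81) / BE (PD X D S ps) ≤ A₂ →
        ε / 200 * X * Real.exp (-(3 / 2 * (Real.log X / D))) ≤
          ((rowset X (fun n => (Real.log X - 1) * (α * cnt n g + β * cnt (n - Y) Y) ≤
            (1 + ε) * (α * A₁ + β * A₂))).card : ℝ) := by
  obtain ⟨X0, hX0⟩ := rows_sums k (ε / 2) (by positivity) (by linarith) Z
  obtain ⟨X1, hX1⟩ := eventually_atTop.1 ((ev_small2 k).and (Pool.Agent.R529.BU.ev_pow_le k))
  refine ⟨max (max X0 X1) 40, fun X hX => ?_⟩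
  have hX40 : 40 ≤ X := (le_max_right _ _).trans hX
  have hXpos : 0 < X := by linarith
  obtain ⟨hsm, hpk⟩ := hX1 X ((le_max_right _ _).trans ((le_max_left _ _).trans hX))
  obtain ⟨ps, S, hps, hS, hr⟩ := hX0 X ((le_max_left _ _).trans ((le_max_left _ _).trans hX))
  refine ⟨ps, S, hps, hS, fun D α β A₁ A₂ g Y hD hg hY hα hβ hVA hVB => ?_⟩
  obtain ⟨-, r2, r3, -⟩ := hr D 0 g hg
  obtain ⟨-, r4, -, -⟩ := hr D (WD X D S ps * Y - Y) Y hY
  obtain ⟨W2, hW2, hco, hWprod, hWDle⟩ := pd_decomp X D S ps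
  have hWexp : (WD X D S ps : ℝ) ≤ Real.exp (Real.log X / 700) := hWDle.trans (WW_le X (by linarith) S ps)
  have hWn : 0 < WD X D S ps := WD_pos X D S ps
  have hleft := VV_left (WD X D S ps) Y hWn
  have hls := left_sum X hX40 (WD X D S ps) Y hWn (hY.trans hpk)
  set W := WD X D S ps with hW
  set B := BE (PD X D S ps) with hB
  have hPp : ∀ p ∈ PD X D S ps, p.Prime := fun p hp => PD_prime hp
  have hB0 : 0 < B := BE_pos hPp
  have hW0 : (0 : ℝ) < W := by exact_mod_cast hWn
  have hφ : (W.totient : ℝ) = W * B := Pool.Agent.H510R2.Maier.totient_prod _ hPp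
  have hφW : (W.totient : ℝ) ≤ W := by exact_mod_cast Nat.totient_le W
  have hφ0 : (0 : ℝ) < W.totient := by exact_mod_cast Nat.totient_pos.2 hWn
  have hM1 := MPhi_ge X hX40
  set M := MPhi X with hM
  have hM0 : 0 < M := by linarith
  set V : ℝ := (VV W 0 g : ℝ) with hV
  have hV0 : 0 ≤ V := Nat.cast_nonneg _
  set U : ℝ := (VV W 0 Y : ℝ) with hU
  have hU0 : 0 ≤ U := Nat.cast_nonneg _
  have hleft' : (VV W (W * Y - Y) Y : ℝ) ≤ U + 1 := by
    rw [hU]
    exact_mod_cast hleft
  set N1 := ∑ n ∈ Icc 1 ⌊3 * X⌋₊, nu X W 0 n with hN1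
  set A := (V + 81) / B with hA
  set A' := (U + 81) / B with hA'
  have hA0 : 0 < A := by positivity
  have hA'0 : 0 < A' := by positivity
  have hMW : 0 < M / W := by positivity
  have hMφ : 0 < M / W.totient := by positivity
  have key : ∀ v : ℝ, 0 ≤ v → (1 + ε / 2 / 4) * ((v + 81) * (M / W.totient)) ≤ (1 + ε / 2) * ((v + 81) / B) * N1 := by
    intro v hv
    calc (1 + ε / 2 / 4) * ((v + 81) * (M / W.totient))
        = (1 + ε / 2 / 4) * ((v + 81) / B) * (M / W) := by
          rw [hφ]; field_simp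
      _ ≤ ((1 + ε / 2) * (1 - ε / 2 / 4)) * ((v + 81) / B) * (M / W) := by
          have q1 : 1 + ε / 2 / 4 ≤ (1 + ε / 2) * (1 - ε / 2 / 4) := by nlinarith
          exact mul_le_mul_of_nonneg_right (mul_le_mul_of_nonneg_right q1 (by positivity)) hMW.le
      _ = (1 + ε / 2) * ((v + 81) / B) * ((1 - ε / 2 / 4) * (M / W)) := by ring
      _ ≤ (1 + ε / 2) * ((v + 81) / B) * N1 := by
          apply mul_le_mul_of_nonneg_left r3
          positivity
  have hT1 : ∑ n ∈ Icc 1 ⌊3 * X⌋₊, nu X W 0 n * thw n g ≤ (1 + ε / 2) * A * N1 := by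
    refine r2.trans (le_trans ?_ (key V hV0))
    nlinarith
  have hT2 : ∑ n ∈ Icc 1 ⌊3 * X⌋₊, nu X W 0 n * thw (n - Y) Y ≤ (1 + ε / 2) * A' * N1 := by
    refine hls.trans (le_trans ?_ (key U hU0))
    have e1 : 6 * ((Y : ℝ) * (Y * Real.log (4 * X))) / 2 ≤ M / W.totient := by
      have h40 : 0 ≤ Real.log (4 * X) := Real.log_nonneg (by linarith)
      have hY0 : (0 : ℝ) ≤ Y := Nat.cast_nonneg Y
      have hLk : 0 ≤ Real.log X ^ k := pow_nonneg (Real.log_nonneg (by linarith)) k
      have b1 : (Y : ℝ) * (Y * Real.log (4 * X)) ≤ (Real.log X) ^ k * ((Real.log X) ^ k * Real.log (4 * X)) := by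
        gcongr
      have b2 : X / 20 / Real.exp (Real.log X / 700) ≤ M / W.totient := by
        apply div_le_div₀ hM0.le hM1 hφ0 (hφW.trans hWexp)
      have b3 : 0 ≤ (Y : ℝ) * (Y * Real.log (4 * X)) := by positivity
      linarith
    have e2 : (1 + ε / 2 / 4) * ((VV W (W * Y - Y) Y : ℝ) * (M / W.totient)) ≤
        (1 + ε / 2 / 4) * ((U + 1) * (M / W.totient)) := by gcongr
    nlinarith
  have hT : ∑ n ∈ Icc 1 ⌊3 * X⌋₊, nu X W 0 n * (α * thw n g + β * thw (n - Y) Y) ≤
      (1 + ε / 2) * (α * A + β * A') * N1 := by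
    have h1 : ∑ n ∈ Icc 1 ⌊3 * X⌋₊, nu X W 0 n * (α * thw n g + β * thw (n - Y) Y) =
        α * ∑ n ∈ Icc 1 ⌊3 * X⌋₊, nu X W 0 n * thw n g +
          β * ∑ n ∈ Icc 1 ⌊3 * X⌋₊, nu X W 0 n * thw (n - Y) Y := by
      rw [Finset.mul_sum, Finset.mul_sum, ← Finset.sum_add_distrib]
      apply Finset.sum_congr rfl
      intro n _
      ring
    rw [h1]
    have h2 := mul_le_mul_of_nonneg_left hT1 hα.le
    have h3 := mul_le_mul_of_nonneg_left hT2 hβ.le
    calc _ ≤ α * ((1 + ε / 2) * A * N1) + β * ((1 + ε / 2) * A' * N1) := add_le_add h2 h3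
      _ = _ := by ring
  have hAA : 0 < α * A + β * A' := by positivity
  have hcnt := count_few X hXpos W 0 (fun n => α * thw n g + β * thw (n - Y) Y)
    (fun n => add_nonneg (mul_nonneg hα.le (thw_nonneg _ _)) (mul_nonneg hβ.le (thw_nonneg _ _)))
    (α * A + β * A') ε N1 hAA hε hε1 rfl hT
  have hsub : rowset X (fun n => α * thw n g + β * thw (n - Y) Y ≤ (1 + ε) * (α * A + β * A')) ⊆
      rowset X (fun n => (Real.log X - 1) * (α * cnt n g + β * cnt (n - Y) Y) ≤ (1 + ε) * (α * A₁ + β * A₂)) := by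
    intro n hn
    obtain ⟨m1, m2, m3, m4⟩ := mem_rowset.1 hn
    refine mem_rowset.2 ⟨m1, m2, m3, ?_⟩
    have hl2 : Real.log 2 ≤ 1 := by
      have := Real.log_two_lt_d9
      linarith
    have hYX : (Y : ℝ) ≤ X / 2 := hY.trans hpk
    have hYn : Y ≤ n := by
      have : (Y : ℝ) ≤ n := by linarith
      exact_mod_cast this
    have c1 : (Real.log X - 1) * cnt n g ≤ thw n g := by
      refine le_trans ?_ (thw_ge n g X hXpos m2)
      apply mul_le_mul_of_nonneg_right _ (Nat.cast_nonneg _)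
      linarith
    have c2 : (Real.log X - 1) * cnt (n - Y) Y ≤ thw (n - Y) Y := by
      refine le_trans ?_ (thw_ge (n - Y) Y (X / 2) (by linarith) (by
        rw [Nat.cast_sub hYn]
        linarith))
      apply mul_le_mul_of_nonneg_right _ (Nat.cast_nonneg _)
      rw [Real.log_div hXpos.ne' (by norm_num)]
      linarith
    have c3 : α * A + β * A' ≤ α * A₁ + β * A₂ := by
      have := mul_le_mul_of_nonneg_left hVA hα.le
      have := mul_le_mul_of_nonneg_left hVB hβ.le
      linarith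
    have c4 := mul_le_mul_of_nonneg_left c1 hα.le
    have c5 := mul_le_mul_of_nonneg_left c2 hβ.le
    have c6 : (1 + ε) * (α * A + β * A') ≤ (1 + ε) * (α * A₁ + β * A₂) :=
      mul_le_mul_of_nonneg_left c3 (by linarith)
    linarith
  have h1 : ((rowset X (fun n => α * thw n g + β * thw (n - Y) Y ≤ (1 + ε) * (α * A + β * A'))).card : ℝ) ≤
      ((rowset X (fun n => (Real.log X - 1) * (α * cnt n g + β * cnt (n - Y) Y) ≤
        (1 + ε) * (α * A₁ + β * A₂))).card : ℝ) := by
    exact_mod_cast Finset.card_le_card hsub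
  refine le_trans ?_ (hcnt.trans h1)
  have h2 : X / 40 / W ≤ N1 := by
    refine le_trans ?_ r3
    have h3 : X / 20 / W ≤ M / W := div_le_div_of_nonneg_right hM1 hW0.le
    have h4 : 0 < X / 20 / W := by positivity
    have h5 : X / 40 / W = 1 / 2 * (X / 20 / W) := by ring
    rw [h5]
    exact mul_le_mul (by linarith) h3 h4.le (by linarith)
  have h3 := WD_le X D hD (by linarith) S ps
  have h4 : Real.exp (-(3 / 2 * (Real.log X / D))) ≤ 1 / W := by
    rw [Real.exp_neg, inv_eq_one_div]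
    exact one_div_le_one_div_of_le hW0 h3
  calc ε / 200 * X * Real.exp (-(3 / 2 * (Real.log X / D))) ≤ ε / 200 * X * (1 / W) :=
        mul_le_mul_of_nonneg_left h4 (by positivity)
    _ ≤ ε / 4 * (X / 40 / W) := by
        rw [show ε / 4 * (X / 40 / W) = ε / 160 * X * (1 / W) by ring]
        refine mul_le_mul_of_nonneg_right ?_ (by positivity)
        refine mul_le_mul_of_nonneg_right ?_ hXpos.le
        linarith
    _ ≤ ε / 4 * N1 := mul_le_mul_of_nonneg_left h2 (by positivity)

end Pool.Agent.R526.LM
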