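import Pool.Agent.R529.BU.Side

/-!
The number of survivors, by Buchstab's function, for windows of length `~ K L ^ t`
(upper bounds; adapted from `Pool.Agent.R529.BU.Side`, helper529).
-/

set_option autoImplicit false

open Finset Filter Topology
open Pool.Agent.H510R2.Maier Pool.Agent.H510R2.Maier.G
open Pool.Agent.H378R2 hiding WW
open Pool.Agent.R529.LD (small_lt small_gt ev_rpow ev_main DD floor_eq DD_ev tendsto_z' BE_le QQ_lim)
open Pool.Agent.R529.BU

namespace Pool.Agent.R526.LM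

theorem log_ratio (t K : ℝ) (hK : 0 < K) (Yf : ℝ → ℕ)
    (hY : Tendsto (fun L : ℝ => (Yf L : ℝ) / L ^ t) atTop (𝓝 K)) :
    Tendsto (fun L : ℝ => Real.log (Yf L) / Real.log L) atTop (𝓝 t) := by
  have h1 : Tendsto (fun L : ℝ => Real.log ((Yf L : ℝ) / L ^ t)) atTop (𝓝 (Real.log K)) :=
    ((Real.continuousAt_log hK.ne').tendsto).comp hY
  have h2 := (h1.mul (Real.tendsto_log_atTop.inv_tendsto_atTop)).add_const t
  rw [mul_zero, zero_add] at h2
  refine h2.congr' ?_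
  have h3 := hY.eventually_const_lt (show K / 2 < K by linarith)
  filter_upwards [h3, eventually_gt_atTop (1 : ℝ)] with L h4 h5
  have hL0 : 0 < L := by linarith
  have hl := Real.log_pos h5
  have hLt : 0 < L ^ t := by positivity
  rw [lt_div_iff₀ hLt] at h4
  have hY0 : (0 : ℝ) < Yf L := lt_trans (by positivity) h4
  simp only [Pi.inv_apply]
  rw [Real.log_div hY0.ne' hLt.ne', Real.log_rpow hL0]
  field_simp
  ring

/-- the asymptotic formula for the main set -/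
theorem RR_up (t θ K δ : ℝ) (hθ : 0 < θ) (hθt : θ < t) (hK : 0 < K) (hδ : 0 < δ) (Yf : ℝ → ℕ)
    (hY : Tendsto (fun L : ℝ => (Yf L : ℝ) / L ^ t) atTop (𝓝 K)) :
    ∀ᶠ L : ℝ in atTop,
      ((RR (Yf L) (⌊1 / 4 * L ^ θ⌋₊ : ℕ)).card : ℝ) ≤ (K * (om (t / θ) / θ) + δ) * (L ^ t / Real.log L) := by
  have ht : 0 < t := by linarith
  have hu1 : 1 < t / θ := by rw [lt_div_iff₀ hθ]; linarith
  obtain ⟨n, hn⟩ := exists_nat_gt (max 2 (t / θ))
  have hn1 : t / θ < n := (le_max_right _ _).trans_lt hn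
  have hn2 : 2 ≤ n := by
    have : (2 : ℝ) < n := (le_max_left _ _).trans_lt hn
    have : (2 : ℕ) < n := by exact_mod_cast this
    omega
  set η : ℝ := (t / θ - 1) / 2 with hη
  have hη0 : 0 < η := by rw [hη]; linarith
  have hlogY := log_ratio t K hK Yf hY
  have hlogz := tlogfloor (1 / 4) θ (by norm_num) hθ
  -- the quotient
  have hq : Tendsto (fun L : ℝ => Real.log (Yf L) / Real.log (⌊1 / 4 * L ^ θ⌋₊ : ℕ)) atTop (𝓝 (t / θ)) := by
    have h1 := hlogY.div hlogz hθ.ne'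
    refine h1.congr' ?_
    filter_upwards [eventually_gt_atTop (1 : ℝ)] with L hL
    have := Real.log_pos hL
    simp only [Pi.div_apply]
    field_simp
  have hW : Tendsto (fun L : ℝ => WW (Real.log (Yf L) / Real.log (⌊1 / 4 * L ^ θ⌋₊ : ℕ))) atTop (𝓝 (WW (t / θ))) :=
    (WW_cont.tendsto _).comp hq
  have hWv : WW (t / θ) / t = om (t / θ) / θ := by
    unfold WW
    field_simp
  -- the combined limits
  set δ' : ℝ := min 1 (δ * t / (4 * K)) with hδ'
  have hδ'0 : 0 < δ' := by positivity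
  obtain ⟨z0, hz0⟩ := QA_all n hn2 η δ' hη0 hδ'0
  have hl1 : Tendsto (fun L : ℝ => ((Yf L : ℝ) / L ^ t) * (WW (Real.log (Yf L) / Real.log (⌊1 / 4 * L ^ θ⌋₊ : ℕ)) + δ') *
      (Real.log (Yf L) / Real.log L)⁻¹) atTop (𝓝 (K * (WW (t / θ) + δ') * t⁻¹)) :=
    (hY.mul (hW.add_const δ')).mul (hlogY.inv₀ ht.ne')
  have hb : K * (δ' * t⁻¹) ≤ δ / 4 := by
    rw [← div_eq_mul_inv, ← mul_div_assoc, div_le_iff₀ ht]
    have h1 := min_le_right 1 (δ * t / (4 * K))
    have h2 : K * δ' ≤ K * (δ * t / (4 * K)) := mul_le_mul_of_nonneg_left h1 hK.le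
    have h3 : K * (δ * t / (4 * K)) = δ / 4 * t := by field_simp
    linarith
  have hd1 : K * (WW (t / θ) + δ') * t⁻¹ < K * (om (t / θ) / θ) + δ := by
    have : K * (WW (t / θ) + δ') * t⁻¹ = K * (WW (t / θ) / t) + K * (δ' * t⁻¹) := by ring
    rw [this, hWv]
    linarith
  have e0 : ∀ᶠ L : ℝ in atTop, z0 ≤ ((⌊1 / 4 * L ^ θ⌋₊ : ℕ) : ℝ) := by
    filter_upwards [(tendsto_z' θ hθ).eventually_ge_atTop ⌈z0⌉₊] with L hL
    exact (Nat.le_ceil z0).trans (by exact_mod_cast hL)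
  filter_upwards [hl1.eventually_lt_const hd1, e0,
    hq.eventually (Ioo_mem_nhds (show 1 + η < t / θ by rw [hη]; linarith) hn1),
    (tendsto_z' θ hθ).eventually_ge_atTop 2, hY.eventually_const_lt (show K / 2 < K by linarith),
    eventually_gt_atTop (1 : ℝ), (tendsto_rpow_atTop ht).eventually_ge_atTop (4 / K)] with L g1 g3 g4 g5 g6 g7 g8
  have hL0 : 0 < L := by linarith
  have hl := Real.log_pos g7
  have hLt : 0 < L ^ t := by positivity
  rw [lt_div_iff₀ hLt] at g6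
  rw [div_le_iff₀ hK] at g8
  set z := ⌊1 / 4 * L ^ θ⌋₊ with hz
  have hz2 : (2 : ℝ) ≤ z := by exact_mod_cast g5
  have hlz : 0 < Real.log z := Real.log_pos (by linarith)
  have hY2 : (2 : ℝ) ≤ Yf L := by nlinarith
  have hlY : 0 < Real.log (Yf L) := Real.log_pos (by linarith)
  obtain ⟨g41, g42⟩ := g4
  rw [lt_div_iff₀ hlz] at g41
  rw [div_lt_iff₀ hlz] at g42
  have h1 := hz0 z g3 (Yf L) (by
    rw [← Real.log_le_log_iff (by positivity) (by linarith), Real.log_rpow (by linarith)]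
    exact g41.le) (by
    rw [← Real.log_le_log_iff (by linarith) (by positivity), Real.log_rpow (by linarith)]
    exact g42.le)
  set w := WW (Real.log (Yf L) / Real.log z) with hw
  set C := ((RR (Yf L) z).card : ℝ) with hC
  obtain ⟨h2, h3⟩ := abs_le.1 h1
  have h4 : (Yf L : ℝ) / L ^ t * (w + δ') * (Real.log (Yf L) / Real.log L)⁻¹ =
      (Yf L * (w + δ') / Real.log (Yf L)) / (L ^ t / Real.log L) := by field_simp
  have hM : 0 < L ^ t / Real.log L := by positivity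
  rw [h4, div_lt_iff₀ hM] at g1
  refine le_trans ?_ g1.le
  rw [le_div_iff₀ hlY]
  linarith

/-- the two bounds for `GG` -/
theorem GG_two (t θ K δ : ℝ) (hθ : 0 < θ) (hθt : θ < t) (hK : 0 < K) (hδ : 0 < δ) (Yf : ℝ → ℕ)
    (hY : Tendsto (fun L : ℝ => (Yf L : ℝ) / L ^ t) atTop (𝓝 K)) :
    ∀ᶠ L : ℝ in atTop, ∀ S : Finset ℕ, ∑ q ∈ S, (1 : ℝ) / q ≤ 6 / (Real.log L) ^ 2 →
      (∀ T : ℕ, T ≤ Yf L → ((GG ⌊1 / 4 * L ^ θ⌋₊ S T).card : ℝ) ≤ 1 + (4 / θ + 6) / Real.log L * T) ∧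
      ((GG ⌊1 / 4 * L ^ θ⌋₊ S (Yf L)).card : ℝ) ≤ (K * (om (t / θ) / θ) + δ) * (L ^ t / Real.log L) := by
  have ht : 0 < t := by linarith
  obtain ⟨n, hn⟩ := exists_nat_gt (max 2 (t / θ))
  have hn1 : t / θ < n := (le_max_right _ _).trans_lt hn
  have hn2 : 2 ≤ n := by
    have : (2 : ℝ) < n := (le_max_left _ _).trans_lt hn
    have : (2 : ℕ) < n := by exact_mod_cast this
    omega
  obtain ⟨z0, hz0⟩ := RR_crude n hn2
  have hlogY := log_ratio t K hK Yf hY
  have hlogz := tlogfloor (1 / 4) θ (by norm_num) hθ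
  have hq : Tendsto (fun L : ℝ => Real.log (Yf L) / Real.log (⌊1 / 4 * L ^ θ⌋₊ : ℕ)) atTop (𝓝 (t / θ)) := by
    have h1 := hlogY.div hlogz hθ.ne'
    refine h1.congr' ?_
    filter_upwards [eventually_gt_atTop (1 : ℝ)] with L hL
    have := Real.log_pos hL
    simp only [Pi.div_apply]
    field_simp
  have e0 : ∀ᶠ L : ℝ in atTop, z0 ≤ ((⌊1 / 4 * L ^ θ⌋₊ : ℕ) : ℝ) := by
    filter_upwards [(tendsto_z' θ hθ).eventually_ge_atTop ⌈z0⌉₊] with L hL
    exact (Nat.le_ceil z0).trans (by exact_mod_cast hL)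
  have h2 := hY.eventually (Ioo_mem_nhds (show K / 2 < K by linarith) (show K < 2 * K by linarith))
  have e1 := Real.tendsto_log_atTop.eventually_ge_atTop (max 1 (48 * K / δ))
  filter_upwards [RR_up t θ K (δ / 4) hθ hθt hK (by positivity) Yf hY, hlogz.eventually_const_lt (show θ / 2 < θ by linarith),
    hq.eventually_lt_const hn1, e0, (tendsto_z' θ hθ).eventually_ge_atTop 2, h2, e1, eventually_gt_atTop (1 : ℝ),
    (tendsto_rpow_atTop ht).eventually_ge_atTop (4 / K)]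
    with L c1 c2 c3 c4 c5 c8 c9 c10 c11
  intro S hS
  have hL0 : 0 < L := by linarith
  have hlog := Real.log_pos c10
  have hlog1 : 1 ≤ Real.log L := (le_max_left _ _).trans c9
  have hlog2 : 48 * K / δ ≤ Real.log L := (le_max_right _ _).trans c9
  have hLt : 0 < L ^ t := by positivity
  obtain ⟨c81, c82⟩ := c8
  rw [lt_div_iff₀ hLt] at c81
  rw [div_lt_iff₀ hLt] at c82
  rw [div_le_iff₀ hK] at c11
  set z := ⌊1 / 4 * L ^ θ⌋₊ with hz
  have hz2 : (2 : ℝ) ≤ z := by exact_mod_cast c5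
  have hlz : 0 < Real.log z := Real.log_pos (by linarith)
  have hY2 : (2 : ℝ) ≤ Yf L := by nlinarith
  set ℓ := Real.log L with hℓ
  rw [lt_div_iff₀ hlog] at c2
  rw [div_lt_iff₀ hlz] at c3
  have hSsum : ∀ T : ℕ, ∑ q ∈ S, ((T / q : ℕ) : ℝ) ≤ 6 / ℓ ^ 2 * T := by
    intro T
    calc ∑ q ∈ S, ((T / q : ℕ) : ℝ) ≤ ∑ q ∈ S, (T : ℝ) * (1 / q) := by
          apply Finset.sum_le_sum
          intro q _
          refine Nat.cast_div_le.trans ?_
          rw [mul_one_div]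
      _ = T * ∑ q ∈ S, (1 : ℝ) / q := by rw [Finset.mul_sum]
      _ ≤ T * (6 / ℓ ^ 2) := by gcongr
      _ = _ := by ring
  constructor
  · intro T hT
    have g1 := GG_le_RR z S T
    have g3 := hSsum T
    have g4 := hz0 z c4 T (Nat.cast_nonneg _) (by
      have h5 : (T : ℝ) ≤ Yf L := by exact_mod_cast hT
      refine h5.trans ?_
      rw [← Real.log_le_log_iff (by linarith) (by positivity), Real.log_rpow (by linarith)]
      exact c3.le)
    have g5 : 6 / ℓ ^ 2 * T ≤ 6 / ℓ * T := by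
      apply mul_le_mul_of_nonneg_right _ (Nat.cast_nonneg _)
      apply div_le_div_of_nonneg_left (by norm_num) hlog
      nlinarith
    have g6 : 2 * (T : ℝ) / Real.log z ≤ 4 / θ / ℓ * T := by
      calc 2 * (T : ℝ) / Real.log z ≤ 2 * (T : ℝ) / (θ / 2 * ℓ) := by gcongr
        _ = _ := by field_simp; ring
    calc ((GG z S T).card : ℝ) ≤ 1 + 4 / θ / ℓ * T + 6 / ℓ * T := by linarith
      _ = _ := by ring
  · have g1 := GG_le_RR z S (Yf L)
    have g3 := hSsum (Yf L)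
    have g5 : 6 / ℓ ^ 2 * (Yf L : ℝ) ≤ δ / 4 * (L ^ t / ℓ) := by
      rw [div_le_iff₀ hδ] at hlog2
      calc 6 / ℓ ^ 2 * (Yf L : ℝ) ≤ 6 / ℓ ^ 2 * (2 * K * L ^ t) := by gcongr
        _ = 12 * K / ℓ * (L ^ t / ℓ) := by field_simp; ring
        _ ≤ δ / 4 * (L ^ t / ℓ) := by
            apply mul_le_mul_of_nonneg_right _ (by positivity)
            rw [div_le_iff₀ hlog]
            linarith
    have g6 := c1
    have g7 : 0 ≤ δ / 4 * (L ^ t / ℓ) := by positivity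
    linarith only [g1, g3, g5, g6, g7]

theorem natlog_ev (t K δ : ℝ) (ht : 0 < t) (hK : 0 < K) (hδ : 0 < δ) (Yf : ℝ → ℕ)
    (hY : Tendsto (fun L : ℝ => (Yf L : ℝ) / L ^ t) atTop (𝓝 K)) :
    ∀ᶠ L : ℝ in atTop, (Nat.log 2 (Yf L) : ℝ) + 82 ≤ δ * (L ^ t / Real.log L) := by
  have h2 := hY.eventually (Ioo_mem_nhds (show K / 2 < K by linarith) (show K < 2 * K by linarith))
  have h3 := (isLittleO_log_rpow_atTop (show (0 : ℝ) < t / 2 by positivity)).def (show (0 : ℝ) < 1 by norm_num)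
  filter_upwards [h2, h3, ev_main (t / 2) t (2 * t + 84 + 2 * |Real.log (2 * K)|) δ (by linarith) (by positivity) hδ,
    eventually_gt_atTop (1 : ℝ), (tendsto_rpow_atTop ht).eventually_ge_atTop (2 / K)] with L c1 c2 c3 c4 c5
  have hL0 : 0 < L := by linarith
  have hlog := Real.log_pos c4
  have hLt : 0 < L ^ t := by positivity
  have c6 := c1.2
  have c7 := c1.1
  rw [div_lt_iff₀ hLt] at c6
  rw [lt_div_iff₀ hLt] at c7
  rw [div_le_iff₀ hK] at c5
  rw [Real.norm_eq_abs, abs_of_nonneg hlog.le, Real.norm_eq_abs, abs_of_nonneg (by positivity), one_mul] at c2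
  have hY1 : (1 : ℝ) ≤ Yf L := by nlinarith
  have hY0 : (0 : ℝ) < Yf L := by linarith
  have h9 := Real.natLog_le_logb (Yf L) 2
  have h10 : Real.logb 2 (Yf L) ≤ 2 * Real.log (Yf L) := by
    unfold Real.logb
    rw [div_le_iff₀ (Real.log_pos (by norm_num))]
    have h11 := Real.log_two_gt_d9
    have h12 : 0 ≤ Real.log (Yf L) := Real.log_nonneg hY1
    nlinarith only [h11, h12]
  have h11 : ((2 : ℕ) : ℝ) = 2 := by norm_num
  rw [h11] at h9
  have h12 : Real.log (Yf L) ≤ Real.log (2 * K) + t * Real.log L := by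
    calc Real.log (Yf L) ≤ Real.log (2 * K * L ^ t) := Real.log_le_log hY0 c6.le
      _ = _ := by rw [Real.log_mul (by positivity) hLt.ne', Real.log_rpow hL0]
  have h13 := le_abs_self (Real.log (2 * K))
  have h130 := abs_nonneg (Real.log (2 * K))
  have h14 : 1 ≤ L ^ (t / 2) := Real.one_le_rpow c4.le (by positivity)
  have h15 : t * Real.log L ≤ t * L ^ (t / 2) := by gcongr
  refine le_trans ?_ c3
  have h16 : |Real.log (2 * K)| ≤ |Real.log (2 * K)| * L ^ (t / 2) := le_mul_of_one_le_right h130 h14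
  nlinarith only [h9, h10, h12, h13, h14, h15, h16]

/-- the survivors, upper bound -/
theorem VV_up (t θ K δ : ℝ) (hθ : 0 < θ) (hθ1 : θ < 1) (hθt : θ < t) (hK : 0 < K) (hδ : 0 < δ) (Yf : ℝ → ℕ)
    (hY : Tendsto (fun L : ℝ => (Yf L : ℝ) / L ^ t) atTop (𝓝 K)) : ∃ Z0 : ℕ, ∀ Z : ℕ, Z0 ≤ Z → ∀ᶠ X : ℝ in atTop,
    ∀ (ps : ℕ) (S : Finset ℕ), GoodP Z ps → GoodS X S →
      (VV (WD X (DD θ (Real.log X)) S ps) 0 (Yf (Real.log X)) : ℝ) + 81 ≤
        (K * (om (t / θ) / θ) + δ) * ((Real.log X) ^ t / Real.log (Real.log X)) := by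
  have ht : 0 < t := by linarith
  set C : ℝ := 4 / θ + 6 with hC
  have hC0 : 0 < C := by positivity
  refine ⟨⌈16 * K * C / δ⌉₊ + 1, fun Z hZ => ?_⟩
  have h2 := hY.eventually_lt_const (show K < 2 * K by linarith)
  have ev := ((GG_two t θ K (δ / 4) hθ hθt hK (by positivity) Yf hY).and (natlog_ev t K (δ / 4) ht hK (by positivity) Yf hY)).and
    ((h2.and (DD_ev θ hθ1)).and (eventually_gt_atTop (1 : ℝ)))
  filter_upwards [Real.tendsto_log_atTop.eventually ev, eventually_ge_atTop (1 : ℝ)] with X hX hX1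
  obtain ⟨⟨c1, c2⟩, ⟨c3, c4⟩, c5⟩ := hX
  intro ps S hps hS
  have hS2 := hS.2
  set L := Real.log X with hL
  have hL0 : 0 < L := by linarith
  have hlog := Real.log_pos c5
  have hLt : 0 < L ^ t := by positivity
  rw [div_lt_iff₀ hLt] at c3
  have hfl := floor_eq (θ := θ) hL0
  obtain ⟨d1, d2⟩ := c1 S hS2
  set z := ⌊1 / 4 * L ^ θ⌋₊ with hz
  set Y := Yf L with hYdef
  set ℓ := Real.log L with hℓ
  have g6 : (VV (WD X (DD θ L) S ps) 0 Y : ℝ) ≤ (HH z S ps Y).card := by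
    have := VV_zero_HH (DD θ L) c4 X hX1 S ps Y
    rw [← hL, hfl] at this
    exact_mod_cast this
  have g0 : (0 : ℝ) ≤ Nat.log 2 Y := Nat.cast_nonneg _
  rcases hps with rfl | ⟨hps, hpZ⟩
  · have g7 : ((HH z S 1 Y).card : ℝ) ≤ (GG z S Y).card := by exact_mod_cast Finset.card_le_card (HH_one z S Y)
    have g8 : 0 ≤ δ / 2 * (L ^ t / ℓ) := by positivity
    linarith only [g6, g7, g0, d2, c2, g8]
  · have g7 : ((HH z S ps Y).card : ℝ) ≤ (GG z S Y).card + (HH z S ps (Y / ps)).card := by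
      exact_mod_cast HH_rec z S ps Y hps
    have g8 := HH_bound z S ps Y hps (C / ℓ) (by positivity) d1 (Y / ps) (Nat.div_le_self _ _)
    have g9 : (Nat.log 2 (Y / ps) : ℝ) ≤ Nat.log 2 Y := by
      exact_mod_cast Nat.log_mono_right (Nat.div_le_self _ _)
    have g10 : 2 * (C / ℓ) * ((Y / ps : ℕ) : ℝ) ≤ δ / 4 * (L ^ t / ℓ) := by
      have g11 : ((Y / ps : ℕ) : ℝ) ≤ Y / ps := Nat.cast_div_le
      have g12 : 16 * K * C / δ ≤ ps := by
        refine (Nat.le_ceil _).trans ?_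
        have : ⌈16 * K * C / δ⌉₊ ≤ ps := by omega
        exact_mod_cast this
      have g13 : (0 : ℝ) < ps := by exact_mod_cast hps.pos
      rw [div_le_iff₀ hδ] at g12
      calc 2 * (C / ℓ) * ((Y / ps : ℕ) : ℝ) ≤ 2 * (C / ℓ) * ((2 * K * L ^ t) / ps) := by
            have : (Y : ℝ) / ps ≤ (2 * K * L ^ t) / ps := by gcongr
            have := g11.trans this
            gcongr
        _ = 4 * K * C / ps * (L ^ t / ℓ) := by field_simp; ring
        _ ≤ δ / 4 * (L ^ t / ℓ) := by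
            apply mul_le_mul_of_nonneg_right _ (by positivity)
            rw [div_le_iff₀ g13]
            linarith
    have g14 : 0 ≤ δ / 4 * (L ^ t / ℓ) := by positivity
    linarith only [g6, g7, g8, g9, g10, g0, d2, c2, g14]

theorem side_up (t θ K δ : ℝ) (hθ : 0 < θ) (hθ1 : θ < 1) (hθt : θ < t) (hK : 0 < K) (hδ : 0 < δ) (Yf : ℝ → ℕ)
    (hY : Tendsto (fun L : ℝ => (Yf L : ℝ) / L ^ t) atTop (𝓝 K)) : ∃ Z0 : ℕ, ∀ Z : ℕ, Z0 ≤ Z → ∀ᶠ X : ℝ in atTop,
    ∀ (ps : ℕ) (S : Finset ℕ), GoodP Z ps → GoodS X S →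
      ((VV (WD X (DD θ (Real.log X)) S ps) 0 (Yf (Real.log X)) : ℝ) + 81) / BE (PD X (DD θ (Real.log X)) S ps) ≤
        (K * ww t θ + δ) * (Real.log X) ^ t := by
  have ht : 0 < t := by linarith
  set E := Real.exp Real.eulerMascheroniConstant * θ with hE
  have hE0 : 0 < E := by positivity
  set c := K * (om (t / θ) / θ) with hc
  have hc0 : 0 < c := by
    have := om_ge (t / θ) (by rw [le_div_iff₀ hθ]; linarith)
    have h2 : 0 < om (t / θ) := by linarith
    positivity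
  have hw : K * ww t θ = E * c := by unfold ww; rw [hE, hc]; field_simp
  obtain ⟨x, hx0, hx1, hx2⟩ := small_lt (fun x => (E + x) * (c + x)) (by fun_prop) (E * c + δ) (min 1 (min E c))
    (lt_min one_pos (lt_min hE0 hc0)) (by simp only [add_zero]; linarith)
  obtain ⟨Z0, hZ0⟩ := VV_up t θ K x hθ hθ1 hθt hK hx0 Yf hY
  refine ⟨Z0, fun Z hZ => ?_⟩
  have hQ := (QQ_lim θ hθ).eventually (Ioo_mem_nhds (show E - 1 < E by linarith) (show E < E + x by linarith))
  have ev := (hQ.and (DD_ev θ hθ1)).and (eventually_gt_atTop (1 : ℝ))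
  filter_upwards [hZ0 Z hZ, Real.tendsto_log_atTop.eventually ev,
    eventually_ge_atTop (1 : ℝ)] with X g1 g3 hX1
  obtain ⟨⟨⟨q1, q2⟩, g4⟩, g6⟩ := g3
  intro ps S hps hS
  have h1 := g1 ps S hps hS
  set L := Real.log X with hL
  have hL0 : 0 < L := by linarith
  have hlog := Real.log_pos g6
  have hfl := floor_eq (θ := θ) hL0
  have hB0 : 0 < BE (PD X (DD θ L) S ps) := BE_pos (fun p hp => PD_prime hp)
  have hQ0 := QQ_pos ⌊1 / 4 * L ^ θ⌋₊
  set z := ⌊1 / 4 * L ^ θ⌋₊ with hz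
  set B := BE (PD X (DD θ L) S ps) with hB
  rw [div_lt_iff₀ hlog] at q2
  have hLt : 0 < L ^ t := by positivity
  have h3 : B⁻¹ ≤ (E + x) * Real.log L := by
    have h5 := QQ_le_BE (DD θ L) g4 X hX1 S ps
    rw [← hL, hfl] at h5
    exact (inv_anti₀ hQ0 h5).trans q2.le
  calc ((VV (WD X (DD θ L) S ps) 0 (Yf L) : ℝ) + 81) / B
      = ((VV (WD X (DD θ L) S ps) 0 (Yf L) : ℝ) + 81) * B⁻¹ := by rw [div_eq_mul_inv]
    _ ≤ ((c + x) * (L ^ t / Real.log L)) * ((E + x) * Real.log L) := by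
        apply mul_le_mul h1 h3 (by positivity) (by positivity)
    _ = ((E + x) * (c + x)) * L ^ t := by field_simp
    _ ≤ _ := by
        rw [hw]
        exact mul_le_mul_of_nonneg_right hx2.le hLt.le

end Pool.Agent.R526.LM
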